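import Pool.Agent.Helper543.RadiiLow
import Pool.Agent.Run7.h805.DR.Bnd

/-!
# MP_cd3201_co: `h(n) ≤ n² exp (5 √(log n) + 22)`

Points in general position with few distinct circumradii. The construction (generic projections of
lifted grids to the plane) is that of the starting library (`Helper543`), whose helper lemmas have
the bound `n² exp (20 √(log n))`; the choice of the dimension is new. Author of this file: helper805.
-/

set_option autoImplicit false

namespace Pool.Agent.Results.MP_cd3201_co.NearlyQuadraticUpper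

/-- the Euclidean plane -/
abbrev Plane := EuclideanSpace ℝ (Fin 2)

/-- general position: no three points collinear, no four points on a circle -/
def GenPos (X : Finset Plane) : Prop :=
  (∀ T ⊆ X, T.card = 3 → ¬ Collinear ℝ (T : Set Plane)) ∧
  (∀ T ⊆ X, T.card = 4 → ¬ ∃ (c : Plane) (r : ℝ), (T : Set Plane) ⊆ Metric.sphere c r)

/-- the radii of the circles through three points of `P` -/
def radii (P : Finset Plane) : Set ℝ :=
  {r | ∃ T ⊆ P, T.card = 3 ∧ ∃ c : Plane, (T : Set Plane) ⊆ Metric.sphere c r}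

/-- the least number of distinct radii for `n` points in general position -/
noncomputable def h (n : ℕ) : ℕ :=
  sInf {k | ∃ P : Finset Plane, P.card = n ∧ GenPos P ∧ k = (radii P).ncard}

open Finset Pool.Agent.Helper543.Melchior Pool.Agent.Helper543.PlaneC
open Pool.Agent.Helper543.Blocks Pool.Agent.Helper543.Constr Pool.Agent.Helper543.RadiiLow

theorem exists_setD (d : ℕ) (hd : 1 ≤ d) (m : ℕ) (hm : 1 ≤ m) :
    ∃ X : Finset Pt, X.card = m ∧ GP X ∧ ∃ D : Finset Pt,
      (∀ r : ℝ, r = (m : ℝ) ^ (1 / (d : ℝ)) →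
        (D.card : ℝ) ≤ (2 * r + 3) ^ d * (12 * d * r ^ 2)) ∧
        ∀ a ∈ X, ∀ b ∈ X, a - b ∈ D := by
  have hex : ∃ N : ℕ, m ≤ N ^ d := ⟨m, Nat.le_self_pow (by omega) m⟩
  classical
  set N := Nat.find hex with hN
  have hN1 : m ≤ N ^ d := Nat.find_spec hex
  have hNpos : 1 ≤ N := by
    by_contra h0
    have : N = 0 := by omega
    rw [this, zero_pow (by omega)] at hN1
    omega
  have hN2 : (N - 1) ^ d < m := by
    by_contra hcon
    push Not at hcon
    have := Nat.find_min' hex hcon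
    omega
  obtain ⟨X, hX, hgp, D, hD, hdif⟩ := exists_box d N
  obtain ⟨Y, hYX, hY⟩ := exists_subset_card_eq (hX ▸ hN1)
  refine ⟨Y, hY, ⟨fun a ha b hb c hc => hgp.1 a (hYX ha) b (hYX hb) c (hYX hc),
    fun a ha b hb c hc e he => hgp.2 a (hYX ha) b (hYX hb) c (hYX hc) e (hYX he)⟩, D, ?_,
    fun a ha b hb => hdif a (hYX ha) b (hYX hb)⟩
  intro r hr
  have hm0 : (1 : ℝ) ≤ m := by exact_mod_cast hm
  have hd0 : (0 : ℝ) < d := by exact_mod_cast hd
  have hr1 : 1 ≤ r := by
    rw [hr]
    exact Real.one_le_rpow hm0 (by positivity)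
  have hrd : r ^ d = m := by
    rw [hr, ← Real.rpow_natCast, ← Real.rpow_mul (by positivity)]
    rw [one_div_mul_cancel hd0.ne', Real.rpow_one]
  have hNr : (N : ℝ) ≤ r + 1 := by
    have h1 : ((N - 1 : ℕ) : ℝ) < r := by
      have h2 : ((N - 1 : ℕ) : ℝ) ^ d < r ^ d := by rw [hrd]; exact_mod_cast hN2
      exact lt_of_pow_lt_pow_left₀ d (by positivity) h2
    have h3 : ((N - 1 : ℕ) : ℝ) = N - 1 := by rw [Nat.cast_sub hNpos]; simp
    rw [h3] at h1
    linarith
  have hN1' : (1 : ℝ) ≤ N := by exact_mod_cast hNpos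
  have hd1 : (1 : ℝ) ≤ d := by exact_mod_cast hd
  calc (D.card : ℝ) ≤ (((2 * N + 1) ^ d * (2 * (d * N ^ 2) + 1) : ℕ) : ℝ) := by exact_mod_cast hD
    _ = (2 * (N : ℝ) + 1) ^ d * (2 * (d * (N : ℝ) ^ 2) + 1) := by push_cast; ring
    _ ≤ (2 * r + 3) ^ d * (3 * (d * (N : ℝ) ^ 2)) := by
        have h5 : (1 : ℝ) ≤ d * (N : ℝ) ^ 2 := by nlinarith [one_le_pow₀ hN1' (n := 2)]
        exact mul_le_mul (pow_le_pow_left₀ (by positivity) (by linarith) d) (by linarith)
          (by positivity) (by positivity)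
    _ ≤ (2 * r + 3) ^ d * (3 * (d * (2 * r) ^ 2)) := by
        gcongr
        linarith
    _ = (2 * r + 3) ^ d * (12 * d * r ^ 2) := by ring

/-- For every `n ≥ 3` there are `n` points in general position with at most
`n² exp (5 √(log n) + 22)` distinct circumradii; in particular
`h n ≤ n² exp (5 √(log n) + 22)`. -/
theorem result (n : ℕ) (hn : 3 ≤ n) :
    (∃ P : Finset Plane, P.card = n ∧ GenPos P ∧ (radii P).Finite ∧
      ((radii P).ncard : ℝ) ≤ (n : ℝ) ^ 2 * Real.exp (5 * √(Real.log n) + 22)) ∧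
    (h n : ℝ) ≤ (n : ℝ) ^ 2 * Real.exp (5 * √(Real.log n) + 22) := by
  classical
  have key : ∃ P : Finset Plane, P.card = n ∧ GenPos P ∧ (radii P).Finite ∧
      ((radii P).ncard : ℝ) ≤ (n : ℝ) ^ 2 * Real.exp (5 * √(Real.log n) + 22) := by
    obtain ⟨d, hd, hbd⟩ := Run7.h805.DR.bound_opt hn
    obtain ⟨X, hX, hgp, D, hD, hdif⟩ := exists_setD d hd n (by omega)
    have hDb : (D.card : ℝ) ≤ n * Real.exp (5 / 2 * √(Real.log n) + 11) :=
      (hD _ rfl).trans (hbd _ rfl)
    have hdif' : ∀ a ∈ X.image psi, ∀ b ∈ X.image psi, a - b ∈ D.image psi := by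
      intro a ha b hb
      rw [mem_image] at ha hb
      obtain ⟨x, hx, rfl⟩ := ha
      obtain ⟨y, hy, rfl⟩ := hb
      rw [← psi_sub]
      exact mem_image_of_mem _ (hdif x hx y hy)
    have hsub := radii_subset hdif'
    refine ⟨X.image psi, ?_, genPos_of_GP hgp, (Finset.finite_toSet _).subset hsub, ?_⟩
    · rw [card_image_of_injective _ psi_inj, hX]
    · have h1 : (radii (X.image psi)).ncard ≤ D.card * D.card := by
        calc (radii (X.image psi)).ncard
            ≤ ((((D.image psi) ×ˢ (D.image psi)).image rad : Finset ℝ) : Set ℝ).ncard :=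
              Set.ncard_le_ncard hsub (Finset.finite_toSet _)
          _ = (((D.image psi) ×ˢ (D.image psi)).image rad).card := Set.ncard_coe_finset _
          _ ≤ ((D.image psi) ×ˢ (D.image psi)).card := card_image_le
          _ = (D.image psi).card * (D.image psi).card := card_product _ _
          _ = D.card * D.card := by rw [card_image_of_injective _ psi_inj]
      set s : ℝ := √(Real.log n) with hs
      calc ((radii (X.image psi)).ncard : ℝ) ≤ (D.card : ℝ) * D.card := by exact_mod_cast h1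
        _ ≤ (n * Real.exp (5 / 2 * s + 11)) * (n * Real.exp (5 / 2 * s + 11)) := by gcongr
        _ = (n : ℝ) ^ 2 * (Real.exp (5 / 2 * s + 11) * Real.exp (5 / 2 * s + 11)) := by ring
        _ = (n : ℝ) ^ 2 * Real.exp (5 * s + 22) := by
            rw [← Real.exp_add]; congr 2; ring
  refine ⟨key, ?_⟩
  obtain ⟨P, h1, h2, -, h4⟩ := key
  refine le_trans ?_ h4
  have h5 : h n ≤ (radii P).ncard := Nat.sInf_le ⟨P, h1, h2, rfl⟩
  exact_mod_cast h5

end Pool.Agent.Results.MP_cd3201_co.NearlyQuadraticUpper
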